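import Pool.Agent.Q55.KY.Stm

/-!
# The longest element permutes the simple roots
-/

set_option autoImplicit false

namespace Pool.Agent.Q95.KY

open Pool.Agent.Q55.KY Function

/-- one term only: nonnegative combinations of nonzero vectors which give a unit vector -/
theorem single_of {I : Type} (n : I →₀ ℕ) (v : I → I →₀ ℕ) (hv : ∀ j, v j ≠ 0) (i : I)
    (h : ∑ j ∈ n.support, n j • v j = Finsupp.single i 1) : ∃ j, n = Finsupp.single j 1 := by
  classical
  have hd : ∑ j ∈ n.support, n j * (v j).degree = 1 := by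
    have := congrArg Finsupp.degree h
    rw [map_sum, Finsupp.degree_single] at this
    rw [← this]
    refine Finset.sum_congr rfl fun j _ => ?_
    rw [map_nsmul, smul_eq_mul]
  have hpos : ∀ j ∈ n.support, 0 < n j * (v j).degree := by
    intro j hj
    refine Nat.mul_pos (Nat.pos_of_ne_zero (Finsupp.mem_support_iff.1 hj)) ?_
    refine Nat.pos_of_ne_zero fun h0 => hv j ?_
    exact (Finsupp.degree_eq_zero_iff _).1 h0
  have hne : n.support.Nonempty := by
    rw [Finset.nonempty_iff_ne_empty]
    intro he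
    rw [he] at hd
    simp at hd
  obtain ⟨j₀, hj₀⟩ := hne
  rw [← Finset.add_sum_erase _ _ hj₀] at hd
  have h1 := hpos j₀ hj₀
  have h2 : ∑ j ∈ n.support.erase j₀, n j * (v j).degree = 0 := by omega
  have h3 : n j₀ * (v j₀).degree = 1 := by omega
  have h4 : n j₀ = 1 := Nat.eq_one_of_mul_eq_one_right h3
  refine ⟨j₀, ?_⟩
  ext j
  by_cases hj : j = j₀
  · subst hj
    simp [h4]
  · rw [Finsupp.single_eq_of_ne hj]
    by_contra hnj
    have hm : j ∈ n.support.erase j₀ := Finset.mem_erase.2 ⟨hj, Finsupp.mem_support_iff.2 hnj⟩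
    have := (Finset.sum_eq_zero_iff.1 h2) j hm
    have := hpos j (Finset.mem_of_mem_erase hm)
    omega

theorem cl_exists {I X : Type} [AddCommGroup X] (f : I → X) (x : X)
    (hx : x ∈ AddSubmonoid.closure (Set.range f)) :
    ∃ n : I →₀ ℕ, Finsupp.linearCombination ℕ f n = x := by
  induction hx using AddSubmonoid.closure_induction with
  | mem x hx =>
    obtain ⟨i, rfl⟩ := hx
    exact ⟨Finsupp.single i 1, by simp⟩
  | zero => exact ⟨0, map_zero _⟩
  | add x y _ _ hx hy =>
    obtain ⟨n, rfl⟩ := hx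
    obtain ⟨m, rfl⟩ := hy
    exact ⟨n + m, map_add _ _ _⟩

/-- XIT -/
theorem xit : S_Xit := by
  intro R I X _ _ D hA hO hL l0 hl0
  classical
  have hneg : ∀ x, D.act l0 (-x) = - D.act l0 x := by
    intro x
    have := hL.smul l0 (-1) x
    simpa using this
  have hwi : Injective (D.act l0) := fun x y h => by
    rw [← hL.rev l0 x, h, hL.rev]
  have hzero : D.act l0 0 = 0 := by
    have := hL.smul l0 0 0
    simpa using this
  have hcp : ∀ β, ∃ β', D.rt β' = - D.act l0 (D.rt β) ∧
      ∀ x, D.ct β' (D.act l0 x) = - D.ct β x := by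
    intro β
    obtain ⟨β', h | h⟩ := hL.cmp l0 β
    · obtain ⟨β'', h''⟩ := hl0 β
      exfalso
      apply hA.pos β'' β'
      rw [h'', h.1]
    · exact ⟨β', h⟩
  choose t ht htc using hcp
  have hti : Injective t := by
    intro β γ h
    apply hA.inj
    apply hwi
    have h1 := ht β
    rw [h, ht γ] at h1
    exact (neg_injective h1).symm
  have hts : Surjective t := Finite.injective_iff_surjective.1 hti
  -- the additive map
  let τ : X →+ X :=
    { toFun := fun x => - D.act l0 x
      map_zero' := by simp [hzero]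
      map_add' := fun x y => by
        rw [hL.add]
        abel }
  have hτ : ∀ x, τ x = - D.act l0 x := fun x => rfl
  have hτi : Injective τ := by
    intro x y h
    apply hwi
    rw [hτ, hτ] at h
    exact neg_injective h
  have hrt0 : ∀ β, D.rt β ≠ 0 := by
    intro β h
    have := hA.two β
    rw [h, map_zero] at this
    norm_num at this
  let f : I → X := fun i => D.rt (D.sm i)
  have hli : LinearIndependent ℕ f := by
    refine LinearIndependent.restrict_scalars (K := ℤ) ?_ hA.ind
    intro a b h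
    simpa using h
  have hLi : Injective (Finsupp.linearCombination ℕ f) := hli
  have hc : ∀ β, ∃ n : I →₀ ℕ, Finsupp.linearCombination ℕ f n = D.rt β := fun β =>
    cl_exists f _ (hA.rtn β)
  choose c hcc using hc
  have hc0 : ∀ β, c β ≠ 0 := by
    intro β h
    apply hrt0 β
    rw [← hcc β, h, map_zero]
  have hθ : ∀ i, ∃ j, t (D.sm i) = D.sm j := by
    intro i
    choose γ hγ using fun j => hts (D.sm j)
    have key : ∑ j ∈ (c (t (D.sm i))).support, (c (t (D.sm i))) j • c (γ j) =
        Finsupp.single i 1 := by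
      apply hLi
      rw [map_sum]
      apply hτi
      have e1 : Finsupp.linearCombination ℕ f (Finsupp.single i 1) = D.rt (D.sm i) := by
        simp [f]
      rw [e1, map_sum]
      have e2 : τ (D.rt (D.sm i)) = D.rt (t (D.sm i)) := by rw [hτ, ht]
      rw [e2, ← hcc (t (D.sm i)), Finsupp.linearCombination_apply, Finsupp.sum]
      refine Finset.sum_congr rfl fun j _ => ?_
      rw [map_nsmul, map_nsmul, hcc (γ j)]
      congr 1
      rw [hτ, ← ht, hγ]
    obtain ⟨j, hj⟩ := single_of _ _ (fun j => hc0 (γ j)) i key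
    refine ⟨j, hA.inj ?_⟩
    rw [← hcc (t (D.sm i)), hj]
    simp [f]
  choose θ hθ using hθ
  have hth : ∀ i, D.rt (D.sm (θ i)) = - D.act l0 (D.rt (D.sm i)) := by
    intro i
    rw [← hθ, ht]
  have hww : ∀ β, D.act l0 (D.act l0 (D.rt β)) = D.rt (t (t β)) := by
    intro β
    rw [ht, ht, hneg, neg_neg]
  have hw2 : ∀ x, D.act l0 (D.act l0 x) = x := by
    intro x
    rw [← hL.app]
    refine hL.tri _ ?_ x
    intro j
    refine ⟨t (t (D.sm j)), ?_⟩
    rw [hL.app, hww]
  refine ⟨θ, ⟨fun β => ⟨t β, ht β, htc β⟩, hth, ?_, ?_, hw2, ?_⟩⟩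
  · intro i x
    rw [← hθ, htc]
  · intro i
    apply hA.ind.injective
    show D.rt (D.sm (θ (θ i))) = D.rt (D.sm i)
    rw [hth, hth, hneg, neg_neg, hw2]
  · intro x y hxy
    have h1 := Relation.ReflTransGen.swap _ _ hxy
    refine Relation.ReflTransGen.lift (D.act l0) ?_ _ _ h1
    rintro a b ⟨β, hβ, rfl⟩
    refine ⟨t β, ?_, ?_⟩
    · rw [htc, hO.cts, neg_neg]
      exact hβ
    · have e : D.ct (t β) (D.act l0 (D.s β b)) = D.ct β b := by
        rw [htc, hO.cts, neg_neg]
      show D.act l0 b = D.act l0 (D.s β b) - D.ct (t β) (D.act l0 (D.s β b)) • D.rt (t β)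
      rw [e, ht, smul_neg, sub_neg_eq_add, ← hL.smul, ← hL.add]
      congr 1
      unfold Dat.s
      abel

end Pool.Agent.Q95.KY
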